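import Pool.Agent.XWar.LowG

/-!
# MP_ee77ae_nt: plain `k`-th powers and a few values of one generic polynomial

`Represents k f r m`: every sufficiently large integer is
`x_1^k + ... + x_r^k + ⌊f y_1⌋ + ... + ⌊f y_m⌋` with `x_i, y_j ≥ 1`, and the sums
`x_1^k + ... + x_r^k + f y_1 + ... + f y_m` with `x_i, y_j ≥ 1` come arbitrarily close to every large
real number.

Let `2 ≤ e ≤ k`. There is `δ < 1`, which depends on `k` and `e` only, with the following property. Let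
`c_0, ..., c_k : ℝ → ℝ` be continuously differentiable, with `c_i` constant for `i > e`, and
`f_s = c_k(s) x ^ k + ... + c_0(s)`. Then all `s` with `c_k(s) > 0` and `c_e'(s) ≠ 0` outside a set of Hausdorff
dimension at most `δ` (so almost all these `s`) satisfy: `Represents k f_s r m` for all
`r ≥ 2 k log (k/(e(1-b))) + 3`, `m ≥ 2 e log (1/b) + 3`, for every `0 < b < 1`. Examples: `f_s = s x ^ k`
(`e = k`), `f_s = (x + s) ^ k` (`e = k - 1`), `f_s = α x ^ k + g(x) + s x ^ e`.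

The matching lower bound: no real polynomial `f = d_k x ^ k + ... + d_0` with `d_k > 0` has the property
`Represents k f r m` with `r + m ≤ k`.
-/

namespace Pool.Agent.Results.MP_ee77ae_nt.FewGenericValues

open MeasureTheory

/-- Every sufficiently large integer is a sum of `r` positive `k`-th powers and `m` terms `⌊f n⌋`, and
the sums of `r` positive `k`-th powers and `m` values `f n` come arbitrarily close to every large real
number (`n ≥ 1` throughout). -/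
def Represents (k : ℕ) (f : ℕ → ℝ) (r m : ℕ) : Prop :=
  (∃ N0 : ℤ, ∀ N : ℤ, N0 ≤ N → ∃ (x : Fin r → ℕ) (y : Fin m → ℕ), (∀ i, 1 ≤ x i) ∧
    (∀ j, 1 ≤ y j) ∧ ∑ i, (x i : ℤ) ^ k + ∑ j, ⌊f (y j)⌋ = N) ∧
  (∀ ε : ℝ, 0 < ε → ∃ Y : ℝ, ∀ z : ℝ, Y ≤ z → ∃ (x : Fin r → ℕ) (y : Fin m → ℕ),
    (∀ i, 1 ≤ x i) ∧ (∀ j, 1 ≤ y j) ∧ |∑ i, (x i : ℝ) ^ k + ∑ j, f (y j) - z| < ε)

theorem result (k e : ℕ) (he : 2 ≤ e) (hek : e ≤ k) :
    (∃ δ : ℝ, δ < 1 ∧ ∀ c : ℕ → ℝ → ℝ, (∀ i ≤ k, ContDiff ℝ 1 (c i)) →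
      (∀ i, e < i → i ≤ k → ∀ s t, c i s = c i t) →
      dimH {s : ℝ | 0 < c k s ∧ deriv (c e) s ≠ 0 ∧ ¬ ∀ (r m : ℕ) (b : ℝ), 0 < b → b < 1 →
        2 * k * Real.log (k / (e * (1 - b))) + 3 ≤ r → 2 * e * Real.log (1 / b) + 3 ≤ m →
        Represents k (fun x => ∑ i ∈ Finset.range (k + 1), c i s * (x : ℝ) ^ i) r m} ≤
        ENNReal.ofReal δ) ∧
    (∀ d : ℕ → ℝ, 0 < d k → ∀ r m : ℕ, r + m ≤ k →
      ¬ Represents k (fun x => ∑ i ∈ Finset.range (k + 1), d i * (x : ℝ) ^ i) r m) := by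
  refine ⟨XWar.res_curveG he hek, ?_⟩
  intro d hd r m hrm h
  have h3 : k < r + m := XWar.lowerG (by omega) hd h.2
  omega

end Pool.Agent.Results.MP_ee77ae_nt.FewGenericValues
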