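import Pool.Agent.FWar.ResE1

/-!
# MP_ee77ae_nt: Waring's problem with `4 κ` summands for the integer parts `⌊n^κ⌋`, almost all `κ`

`Represents f m`: every sufficiently large integer is a sum of exactly `m` terms `⌊f n⌋`, `n ≥ 1`, and
the sums of exactly `m` values `f n`, `n ≥ 1`, come arbitrarily close to every large real number.

For almost every real `κ ≥ 5/4`, for every `α > 0`, the function `α x^κ` has this property for all
`m ≥ ⌊4κ⌋`, and for all `m ≥ 4 (log 2) κ + 5` (which is about `2.78 κ`). The exceptional `κ` in a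
bounded interval form a set of Hausdorff dimension less than one.
-/

namespace Pool.Agent.Results.MP_ee77ae_nt.FloorExponents

open MeasureTheory

/-- Every sufficiently large integer is a sum of exactly `m` terms `⌊f n⌋`, and the sums of exactly
`m` values `f n` come arbitrarily close to every large real number (`n ≥ 1` throughout). -/
def Represents (f : ℕ → ℝ) (m : ℕ) : Prop :=
  (∃ N0 : ℤ, ∀ N : ℤ, N0 ≤ N → ∃ n : Fin m → ℕ, (∀ i, 1 ≤ n i) ∧ ∑ i, ⌊f (n i)⌋ = N) ∧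
  (∀ ε : ℝ, 0 < ε → ∃ Y : ℝ, ∀ y : ℝ, Y ≤ y → ∃ n : Fin m → ℕ, (∀ i, 1 ≤ n i) ∧
    |∑ i, f (n i) - y| < ε)

/-- Linear bound in Waring's problem for the exponent `κ` and all multipliers `α > 0`: any number
`m ≥ ⌊4κ⌋` and any number `m ≥ 4 (log 2) κ + 5` of summands suffices. -/
def LinearWaring (κ : ℝ) : Prop :=
  ∀ m : ℕ, (⌊4 * κ⌋₊ ≤ m ∨ 4 * Real.log 2 * κ + 5 ≤ (m : ℝ)) →
    ∀ α : ℝ, 0 < α → Represents (fun x => α * (x : ℝ) ^ κ) m

theorem result :
    (∀ᵐ κ : ℝ, 5 / 4 ≤ κ → LinearWaring κ) ∧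
    (∀ b : ℝ, dimH {κ : ℝ | 5 / 4 ≤ κ ∧ κ ≤ b ∧ ¬ LinearWaring κ} < 1) :=
  ⟨FWar.res_ae, FWar.res_dim⟩

end Pool.Agent.Results.MP_ee77ae_nt.FloorExponents
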