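import Pool.Agent.FFW.Final2

/-!
# MP_ee77ae_nt: the function field analogue of `G(k) ≤ 4k` for large finite fields

For every `k ≥ 3` there are `q₀` and `D₀` such that, for every finite field `F` with `q ≥ q₀`
elements and characteristic larger than `k`, every polynomial `N` over `F` of degree at least `D₀`
is, for every `s ≥ 2k + 5`, a sum of `s` `k`-th powers of polynomials of degree at most
`⌈deg N / k⌉` (`k * natDegree x < natDegree N + k`).

Proof in `Pool/Agent/FFW`: sums of `k` `k`-th powers form a set `W` of almost full size (nonvanishing
of the Jacobian at a monomial point, Reed-Muller minimum distance, an elementary Bezout bound);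
`W + W` and five further summands: Weyl differencing and a lemma on Hankel forms for the minor arcs,
a weight on the major arcs which makes the truncated singular series positive.
-/

namespace Pool.Agent.Results.MP_ee77ae_nt.FunctionFields

open Polynomial

theorem result (k : ℕ) (hk : 3 ≤ k) : ∃ q₀ D₀ : ℕ, ∀ (F : Type) [Field F] [Fintype F],
    q₀ ≤ Fintype.card F → k < ringChar F →
    ∀ N : F[X], D₀ ≤ N.natDegree → ∀ s : ℕ, 2 * k + 5 ≤ s → ∃ x : Fin s → F[X],
      (∀ i, k * (x i).natDegree < N.natDegree + k) ∧ ∑ i, x i ^ k = N :=
  FFW.main2 k hk

end Pool.Agent.Results.MP_ee77ae_nt.FunctionFields
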