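import Pool.Agent.FWar.ResK
import Pool.Agent.VWar.ResPq
import Pool.Agent.KWar.Fin
import Pool.Agent.KWar.ParG
import Pool.Agent.HWar.LowerF
import Pool.Agent.LWar.FinF

/-!
# MP_ee77ae_nt: Waring's problem for almost all polynomials of degree `k`

`Represents f m`: every sufficiently large integer is a sum of exactly `m` terms `⌊f n⌋`, `n ≥ 1`, and
the sums of exactly `m` values `f n`, `n ≥ 1`, come arbitrarily close to every large real number.

Let `1 ≤ d ≤ k`, `k ≥ 2`, and let `g` be any real polynomial of degree less than `k`. For almost every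
`t ∈ ℝ ^ d` the monic polynomial
`f = x ^ k + g(x) + t_0 x ^ (k-1) + t_1 x ^ (k-2) + ... + t_(d-1) x ^ (k-d)` of degree `k` has the property
`Represents f m` for every `m` which is at least one of the numbers `4 k - 1`, `4 (log 2) k + 7`,
`k + 52 (k / √d + k ^ (2/3))` and, if `d = k`, `2 k + 1`.

The matching lower bound: no monic real polynomial of degree `k` has this property with `m ≤ k`.
-/

namespace Pool.Agent.Results.MP_ee77ae_nt.GenericPolynomials

open MeasureTheory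

/-- Every sufficiently large integer is a sum of exactly `m` terms `⌊f n⌋`, and the sums of exactly
`m` values `f n` come arbitrarily close to every large real number (`n ≥ 1` throughout). -/
def Represents (f : ℕ → ℝ) (m : ℕ) : Prop :=
  (∃ N0 : ℤ, ∀ N : ℤ, N0 ≤ N → ∃ n : Fin m → ℕ, (∀ i, 1 ≤ n i) ∧ ∑ i, ⌊f (n i)⌋ = N) ∧
  (∀ ε : ℝ, 0 < ε → ∃ Y : ℝ, ∀ y : ℝ, Y ≤ y → ∃ n : Fin m → ℕ, (∀ i, 1 ≤ n i) ∧
    |∑ i, f (n i) - y| < ε)

/-- The map from `t` to all lower coefficients preserves null sets. -/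
theorem rev_ae {k : ℕ} (v : Fin k → ℝ) {P : (Fin k → ℝ) → Prop} (h : ∀ᵐ c : Fin k → ℝ, P c) :
    ∀ᵐ t : Fin k → ℝ, P (fun j => v j + t j.rev) := by
  have h1 := measurePreserving_add_left (volume : Measure (Fin k → ℝ)) v
  have h2 := volume_measurePreserving_piCongrLeft (fun _ : Fin k => ℝ) (Fin.revPerm)
  have h3 := (h1.comp h2).quasiMeasurePreserving.ae h
  filter_upwards [h3] with t ht
  have : (fun j => v j + t j.rev) =
      ((fun x => v + x) ∘ (MeasurableEquiv.piCongrLeft (fun _ : Fin k => ℝ) Fin.revPerm)) t := by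
    funext j
    have h4 := Equiv.piCongrLeft_apply_apply (fun _ : Fin k => ℝ) (Fin.revPerm) t j.rev
    simp only [Fin.revPerm_apply, Fin.rev_rev] at h4
    simp only [Function.comp_apply, Pi.add_apply, MeasurableEquiv.coe_piCongrLeft, h4]
  rw [this]
  exact ht

/-- The choice of the parameter `a`. -/
theorem choose_a {k d : ℕ} (hk : 2700 ≤ k) (hd : 270 ≤ d) :
    ∃ a : ℕ, 3 ≤ a ∧ 100 * a ^ 3 ≤ k ∧ 30 * a ^ 2 ≤ d ∧
      7 * ((k : ℝ) / a) ≤ 52 * (k / √(d : ℝ) + (k : ℝ) ^ ((2 : ℝ) / 3)) := by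
  have hk0 : (0 : ℝ) < k := by exact_mod_cast (by omega : 0 < k)
  have hd0 : (0 : ℝ) < d := by exact_mod_cast (by omega : 0 < d)
  obtain ⟨s, hs⟩ : ∃ s, s = √(d : ℝ) := ⟨_, rfl⟩
  have hs0 : 0 < s := by rw [hs]; exact Real.sqrt_pos.2 hd0
  have hs2 : s ^ 2 = d := by rw [hs]; exact Real.sq_sqrt hd0.le
  obtain ⟨c, hc⟩ : ∃ c, c = (k : ℝ) ^ ((1 : ℝ) / 3) := ⟨_, rfl⟩
  have hc0 : 0 < c := by rw [hc]; exact Real.rpow_pos_of_pos hk0 _
  have hc3 : c ^ 3 = k := by
    rw [hc, ← Real.rpow_natCast, ← Real.rpow_mul hk0.le]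
    norm_num
  have hc2 : (k : ℝ) ^ ((2 : ℝ) / 3) = c ^ 2 := by
    rw [hc, ← Real.rpow_natCast, ← Real.rpow_mul hk0.le]
    norm_num
  rw [hc2, ← hs]
  -- the two candidates
  obtain ⟨a1, h1, h1'⟩ : ∃ a1 : ℕ, 30 * a1 ^ 2 ≤ d ∧ d < 30 * (a1 + 1) ^ 2 := by
    refine ⟨Nat.sqrt (d / 30), ?_, ?_⟩
    · have := Nat.sqrt_le' (d / 30)
      omega
    · have := Nat.lt_succ_sqrt' (d / 30)
      rw [Nat.succ_eq_add_one] at this
      omega
  obtain ⟨a2, h2, h2'⟩ : ∃ a2 : ℕ, 100 * a2 ^ 3 ≤ k ∧ k < 100 * (a2 + 1) ^ 3 := by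
    have h0 : ∃ n : ℕ, k < 100 * (n + 1) ^ 3 := by
      refine ⟨k, ?_⟩
      have : (k + 1) ≤ (k + 1) ^ 3 := Nat.le_self_pow (by norm_num) _
      omega
    classical
    refine ⟨Nat.find h0, ?_, Nat.find_spec h0⟩
    by_contra hcon
    rcases Nat.eq_zero_or_pos (Nat.find h0) with hz | hz
    · rw [hz] at hcon
      omega
    · have h3 := Nat.find_min h0 (m := Nat.find h0 - 1) (by omega)
      rw [Nat.sub_add_cancel hz] at h3
      omega
  have a1ge : 3 ≤ a1 := by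
    by_contra hcon
    have : (a1 + 1) ^ 2 ≤ 3 ^ 2 := Nat.pow_le_pow_left (by omega) 2
    omega
  have a2ge : 3 ≤ a2 := by
    by_contra hcon
    have : (a2 + 1) ^ 3 ≤ 3 ^ 3 := Nat.pow_le_pow_left (by omega) 3
    omega
  rcases le_total a1 a2 with h | h
  · have ha0 : (3 : ℝ) ≤ a1 := by exact_mod_cast a1ge
    refine ⟨a1, a1ge, le_trans (Nat.mul_le_mul_left _ (Nat.pow_le_pow_left h 3)) h2, h1, ?_⟩
    have h3 : (d : ℝ) < 30 * ((a1 : ℝ) + 1) ^ 2 := by exact_mod_cast h1'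
    have h4 : s ≤ 7.4 * a1 := by
      apply le_of_sq_le_sq _ (by positivity)
      rw [hs2]
      nlinarith
    have h5 : 7 * ((k : ℝ) / a1) ≤ 52 * (k / s) := by
      rw [mul_div_assoc', mul_div_assoc', div_le_div_iff₀ (by linarith) hs0]
      nlinarith
    have h6 : 0 < c ^ 2 := by positivity
    linarith
  · have ha0 : (3 : ℝ) ≤ a2 := by exact_mod_cast a2ge
    refine ⟨a2, a2ge, h2, le_trans (Nat.mul_le_mul_left _ (Nat.pow_le_pow_left h 2)) h1, ?_⟩
    have h3 : (k : ℝ) < 100 * ((a2 : ℝ) + 1) ^ 3 := by exact_mod_cast h2'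
    have h4 : c ≤ 6.2 * a2 := by
      by_contra hcon
      push Not at hcon
      have h5 : (6.2 * (a2 : ℝ)) ^ 3 < c ^ 3 := pow_lt_pow_left₀ hcon (by positivity) (by norm_num)
      have h6 : ((a2 : ℝ) + 1) ^ 3 ≤ (4 / 3 * (a2 : ℝ)) ^ 3 :=
        pow_le_pow_left₀ (by positivity) (by linarith) 3
      have h7 : (0 : ℝ) < (a2 : ℝ) ^ 3 := by positivity
      rw [hc3, mul_pow] at h5
      rw [mul_pow] at h6
      norm_num at h5 h6
      linarith
    have h5 : 7 * ((k : ℝ) / a2) ≤ 52 * c ^ 2 := by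
      rw [mul_div_assoc', div_le_iff₀ (by linarith), ← hc3]
      have h6 : 0 < c ^ 2 := by positivity
      have h7 : 7 * c ≤ 52 * a2 := by linarith
      have h8 := mul_le_mul_of_nonneg_left h7 h6.le
      nlinarith
    have h6 : 0 < (k : ℝ) / s := by positivity
    linarith

/-- Lower bound: no polynomial of degree `k` has the property with `m ≤ k`. -/
theorem lower_poly {k : ℕ} (hk : 2 ≤ k) {α : ℝ} (hα : 0 < α) {g : Polynomial ℝ}
    (hg : g.natDegree < k) {m : ℕ} (h : Represents (fun x => α * ((x : ℝ) ^ k + g.eval (x : ℝ))) m) :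
    k < m := by
  refine HWar.lower_s (by omega) (f := fun x : ℕ => α * ((x : ℝ) ^ k + g.eval (x : ℝ))) hα ?_ h.2
  have h1 := (HWar.lowerF_lim (d := 0) (by omega : 1 ≤ k) hg Fin.elim0).const_mul α
  rw [mul_one] at h1
  refine h1.congr fun x => ?_
  unfold HWar.ff
  rw [Fin.sum_univ_zero, add_zero, mul_div_assoc]

/-- For `k < 2700` or `d < 270` the bound with `√d` is larger than `4 k`. -/
theorem small_kd {k d m : ℕ} (hk : 2 ≤ k) (hd : 1 ≤ d) (h : ¬ (2700 ≤ k ∧ 270 ≤ d))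
    (hm : (k : ℝ) + 52 * (k / √(d : ℝ) + (k : ℝ) ^ ((2 : ℝ) / 3)) ≤ m) : 4 * k - 1 ≤ m := by
  have hk0 : (0 : ℝ) < k := by exact_mod_cast (by omega : 0 < k)
  have hd0 : (0 : ℝ) < d := by exact_mod_cast (by omega : 0 < d)
  have key : (4 : ℝ) * k ≤ m := by
    have h1 : 0 < (k : ℝ) / √(d : ℝ) := div_pos hk0 (Real.sqrt_pos.2 hd0)
    have h2 : 0 < (k : ℝ) ^ ((2 : ℝ) / 3) := Real.rpow_pos_of_pos hk0 _
    rcases not_and_or.1 h with h3 | h3
    · obtain ⟨c, hc⟩ : ∃ c, c = (k : ℝ) ^ ((1 : ℝ) / 3) := ⟨_, rfl⟩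
      have hc0 : 0 < c := by rw [hc]; exact Real.rpow_pos_of_pos hk0 _
      have hc3 : c ^ 3 = k := by
        rw [hc, ← Real.rpow_natCast, ← Real.rpow_mul hk0.le]
        norm_num
      have hc2 : (k : ℝ) ^ ((2 : ℝ) / 3) = c ^ 2 := by
        rw [hc, ← Real.rpow_natCast, ← Real.rpow_mul hk0.le]
        norm_num
      have h4 : (k : ℝ) < 2744 := by exact_mod_cast (by omega : k < 2744)
      have h5 : c ≤ 14 := by
        by_contra hcon
        push Not at hcon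
        have h6 : (14 : ℝ) ^ 3 < c ^ 3 := pow_lt_pow_left₀ hcon (by norm_num) (by norm_num)
        rw [hc3] at h6
        norm_num at h6
        linarith
      have h6 : (k : ℝ) ≤ 14 * c ^ 2 := by
        rw [← hc3]
        nlinarith [mul_le_mul_of_nonneg_right h5 (sq_nonneg c)]
      rw [hc2] at hm h2
      linarith
    · have h4 : (d : ℝ) ≤ 17 ^ 2 := by
        have : d ≤ 17 ^ 2 := by omega
        exact_mod_cast this
      have h5 : √(d : ℝ) ≤ 17 := by
        rw [show (17 : ℝ) = √(17 ^ 2) by rw [Real.sqrt_sq (by norm_num)]]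
        exact Real.sqrt_le_sqrt h4
      have h6 : (k : ℝ) / 17 ≤ k / √(d : ℝ) :=
        div_le_div_of_nonneg_left hk0.le (Real.sqrt_pos.2 hd0) h5
      linarith
  have : 4 * k ≤ m := by exact_mod_cast key
  omega

theorem result (k d : ℕ) (hk : 2 ≤ k) (hd1 : 1 ≤ d) (hd : d ≤ k) :
    (∀ g : Polynomial ℝ, g.natDegree < k → ∀ᵐ t : Fin d → ℝ, ∀ m : ℕ,
      (4 * k - 1 ≤ m ∨ 4 * Real.log 2 * k + 7 ≤ (m : ℝ) ∨
        (k : ℝ) + 52 * (k / √(d : ℝ) + (k : ℝ) ^ ((2 : ℝ) / 3)) ≤ m ∨ (d = k ∧ 2 * k + 1 ≤ m)) →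
      Represents (fun x => (x : ℝ) ^ k + g.eval (x : ℝ) +
        ∑ i : Fin d, t i * (x : ℝ) ^ (k - 1 - (i : ℕ))) m) ∧
    (∀ g : Polynomial ℝ, g.natDegree < k → ∀ m : ℕ, m ≤ k →
      ¬ Represents (fun x => (x : ℝ) ^ k + g.eval (x : ℝ)) m) := by
  constructor
  swap
  · intro g hg m hm h
    have h1 := lower_poly hk (α := 1) one_pos hg (m := m) (by simpa only [one_mul] using h)
    omega
  intro g hg
  have hk0 : (0 : ℝ) < k := by exact_mod_cast (by omega : 0 < k)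
  -- the first case
  have c1 : ∀ᵐ t : Fin d → ℝ, ∀ m : ℕ,
      1 ≤ d ∧ (4 * k - 1 ≤ m ∨ 4 * Real.log 2 * k + 7 ≤ (m : ℝ)) →
      Represents (fun x => (x : ℝ) ^ k + g.eval (x : ℝ) +
          ∑ i : Fin d, t i * (x : ℝ) ^ (k - 1 - (i : ℕ))) m := by
    by_cases hc : 1 ≤ d
    · filter_upwards [VWar.res_d_ae hk hc hd hg] with t h1 m hm
      exact h1 m hm.2
    · exact Filter.Eventually.of_forall fun t m hm => absurd hm.1 hc
  -- the second case
  have c2 : ∀ᵐ t : Fin d → ℝ, ∀ m : ℕ, 2700 ≤ k ∧ 270 ≤ d ∧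
      (k : ℝ) + 52 * (k / √(d : ℝ) + (k : ℝ) ^ ((2 : ℝ) / 3)) ≤ m →
      Represents (fun x => (x : ℝ) ^ k + g.eval (x : ℝ) +
          ∑ i : Fin d, t i * (x : ℝ) ^ (k - 1 - (i : ℕ))) m := by
    by_cases hc : 2700 ≤ k ∧ 270 ≤ d
    · obtain ⟨a, ha, hak, had, hab⟩ := choose_a hc.1 hc.2
      obtain ⟨p, hs, hL⟩ := KWar.par_g ha hak hd had
      have hp : LWar.ParF p := ⟨hL⟩
      filter_upwards [KWar.apx_ae p hg, LWar.exact_ae p hp hg] with t h1 h2 m hm
      have hsm : p.s ≤ m := by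
        have ha0 : (0 : ℝ) < a := by exact_mod_cast (by omega : 0 < a)
        have h3 : (a : ℝ) * p.s ≤ a * k + 7 * k := by exact_mod_cast hs
        have h4 : (p.s : ℝ) ≤ k + 7 * ((k : ℝ) / a) := by
          have h5 : (a : ℝ) * (k + 7 * ((k : ℝ) / a)) = a * k + 7 * k := by
            field_simp
          rw [← h5] at h3
          exact le_of_mul_le_mul_left h3 ha0
        have h6 : (p.s : ℝ) ≤ m := by linarith [hm.2.2]
        exact_mod_cast h6
      exact ⟨LWar.exact_mono hsm h2, KWar.apx_mono hsm h1⟩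
    · exact Filter.Eventually.of_forall fun t m hm => absurd ⟨hm.1, hm.2.1⟩ hc
  -- the third case
  have c3 : ∀ᵐ t : Fin d → ℝ, ∀ m : ℕ, d = k ∧ 2 * k + 1 ≤ m →
      Represents (fun x => (x : ℝ) ^ k + g.eval (x : ℝ) +
          ∑ i : Fin d, t i * (x : ℝ) ^ (k - 1 - (i : ℕ))) m := by
    by_cases hc : d = k
    · subst hc
      have h7 := rev_ae (fun j : Fin d => g.coeff (j : ℕ))
        (FWar.res_polyK hk (α := (1 : ℝ)) one_pos)
      filter_upwards [h7] with t ht m hm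
      have h9 := ht m hm.2
      have h10 : (fun x : ℕ => (1 : ℝ) * (x : ℝ) ^ d +
          ∑ j : Fin d, (g.coeff (j : ℕ) + t j.rev) * (x : ℝ) ^ (j : ℕ)) =
          (fun x : ℕ => (x : ℝ) ^ d + g.eval (x : ℝ) +
            ∑ i : Fin d, t i * (x : ℝ) ^ (d - 1 - (i : ℕ))) := by
        funext x
        have h11 : g.eval (x : ℝ) = ∑ j : Fin d, g.coeff (j : ℕ) * (x : ℝ) ^ (j : ℕ) := by
          rw [Polynomial.eval_eq_sum_range' hg, Finset.sum_range]
        have h12 : ∑ i : Fin d, t i * (x : ℝ) ^ (d - 1 - (i : ℕ)) =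
            ∑ j : Fin d, t j.rev * (x : ℝ) ^ (j : ℕ) := by
          rw [← Equiv.sum_comp Fin.revPerm]
          refine Finset.sum_congr rfl fun i _ => ?_
          simp only [Fin.revPerm_apply, Fin.val_rev]
          congr 2
          omega
        rw [h11, h12, one_mul, add_assoc, ← Finset.sum_add_distrib]
        congr 1
        refine Finset.sum_congr rfl fun i _ => by ring
      rw [h10] at h9
      exact h9
    · exact Filter.Eventually.of_forall fun t m hm => absurd hm.1 hc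
  filter_upwards [c1, c2, c3] with t h1 h2 h3 m
  rintro (hm | hm | hm | hm)
  · exact h1 m ⟨hd1, Or.inl hm⟩
  · exact h1 m ⟨hd1, Or.inr hm⟩
  · by_cases hc : 2700 ≤ k ∧ 270 ≤ d
    · exact h2 m ⟨hc.1, hc.2, hm⟩
    · exact h1 m ⟨hd1, Or.inl (small_kd hk hd1 hc hm)⟩
  · exact h3 m hm

end Pool.Agent.Results.MP_ee77ae_nt.GenericPolynomials
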